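import Pool.Agent.Lib.MP_389802_lc.Hard

/-!
Every `Σ¹₂` equivalence relation is the relation of Borel isomorphism over the label space
for a Borel family of Borel sets.
-/

namespace Pool.Agent.Lib.UB93

open Pool.Agent.Lib.BIso Set MeasureTheory Function

/-- measurable Schroeder-Bernstein, with the shape of the bijection -/
lemma sb {Z : Type} [MeasurableSpace Z] [Nonempty Z] {f g : Z → Z} (hf : MeasurableEmbedding f)
    (hg : MeasurableEmbedding g) : ∃ ψ : Z ≃ Z, Measurable ψ ∧ ∀ j, ψ j = f j ∨ g (ψ j) = j := by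
  classical
  set B : Set Z := ⋃ n, (g ∘ f)^[n] '' (range g)ᶜ with hB
  have mB : MeasurableSet B := .iUnion fun n => by
    induction n with
    | zero => simpa using hg.measurableSet_range.compl
    | succ n ih =>
      rw [iterate_succ', image_comp]
      exact (hg.comp hf).measurableSet_image' ih
  have b1 : ∀ x, x ∉ B → g (hg.invFun x) = x := fun x h => by
    obtain ⟨y, rfl⟩ : x ∈ range g := by_contra fun n => h (mem_iUnion.2 ⟨0, x, n, rfl⟩)
    rw [hg.leftInverse_invFun]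
  have b2 : ∀ x ∈ B, g (f x) ∈ B := fun x h => by
    obtain ⟨n, z, a, rfl⟩ := mem_iUnion.1 h
    exact mem_iUnion.2 ⟨n + 1, z, a, iterate_succ_apply' _ _ _⟩
  have b3 : ∀ y, g y ∈ B → ∃ x ∈ B, f x = y := fun y h => by
    obtain ⟨n, z, a, e⟩ := mem_iUnion.1 h
    cases n with
    | zero => exact (a ⟨y, e.symm⟩).elim
    | succ n =>
      rw [iterate_succ_apply'] at e
      exact ⟨_, mem_iUnion.2 ⟨n, z, a, rfl⟩, hg.injective e⟩
  refine ⟨Equiv.ofBijective (fun x => if x ∈ B then f x else hg.invFun x) ⟨fun x x' e => ?_,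
    fun y => ?_⟩, .ite mB hf.measurable hg.measurable_invFun, fun j => ?_⟩
  · by_cases h : x ∈ B <;> by_cases h' : x' ∈ B <;> simp only [h, h', if_true, if_false] at e
    · exact hf.injective e
    · exact (h' (b1 x' h' ▸ e ▸ b2 x h)).elim
    · exact (h (b1 x h ▸ e ▸ b2 x' h')).elim
    · rw [← b1 x h, e, b1 x' h']
  · by_cases h : g y ∈ B
    · obtain ⟨x, a, e⟩ := b3 y h
      exact ⟨x, by simp [a, e]⟩
    · exact ⟨g y, by simp [h, hg.leftInverse_invFun y]⟩
  · by_cases h : j ∈ B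
    · exact .inl (by simp [h])
    · exact .inr (by simp [h, b1 j h])

theorem unif' {S : Set X} (hS : Sigma12 S) : ∃ (κ : X → Code) (C : X × (X × X) × W → Prop),
    Measurable κ ∧ Surjective κ ∧ Measurable C ∧
    (∀ x ∈ S, ∃ f : X × X → W, Measurable f ∧ ∀ p, C (x, p, f p)) ∧
    ∀ x ∉ S, ∀ p w, C (x, p, w) → Wf (κ p.1) → Cons (κ p.1) p w.2.2.1 w.2.2.2 ∧ w.2.2.1 [] := by
  obtain ⟨A, hA, rfl⟩ := hS
  obtain ⟨T, t1, t2⟩ := tree hA
  obtain ⟨κ, k1, k2⟩ := ex_surj Code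
  refine ⟨κ, fun u => Sim (T (u.1, u.2.2.1)) (κ u.2.1.1) u.2.2.2.1 ∨
    (Cons (κ u.2.1.1) u.2.1 u.2.2.2.2.1 u.2.2.2.2.2 ∧ u.2.2.2.2.1 []), k1, k2, ?_,
    fun x ⟨y, hy⟩ => ?_, fun x n p w h wf => h.resolve_left fun h => ?_⟩
  · unfold Sim
    fun_prop
  · have ac := ac_of (mt (t2 _).2 hy)
    generalize hT : T (x, y) = T0 at ac
    have m : ∀ (σ s) (Q : List ℕ → Code × X × X → Prop), (Ac T0 σ → Measurable (Q σ)) →
        Measurable fun p : X × X => Ac T0 σ ∧ Q σ (shift (κ p.1) s, p) := fun σ s Q h => by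
      by_cases t : Ac T0 σ
      · exact .and measurable_const ((h t).comp (by fun_prop))
      · simp [t]
    refine ⟨fun p => (y, fun σ s => Ac T0 σ ∧ Em T0 σ (shift (κ p.1) s),
      fun s => ∃ σ, Ac T0 σ ∧ ¬ Em T0 σ (shift (κ p.1) s),
      fun s => (∃ σ, Ac T0 σ ∧ ¬ Em T0 σ (shift (κ p.1) s)) ∧ Mem (shift (κ p.1) s) p),
      measurable_const.prodMk (.prodMk ?_ (.prodMk ?_ ?_)), fun p => ?_⟩
    · exact measurable_pi_lambda _ fun σ => measurable_pi_lambda _ fun s =>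
        m σ s (fun σ u => Em T0 σ u.1) fun t => t.main.1.comp measurable_fst
    · exact measurable_pi_lambda _ fun s => .exists fun σ =>
        m σ s (fun σ u => ¬ Em T0 σ u.1) fun t => (t.main.1.comp measurable_fst).not
    · simp only [← exists_and_right, and_assoc]
      exact measurable_pi_lambda _ fun s => .exists fun σ =>
        m σ s (fun σ u => ¬ Em T0 σ u.1 ∧ Mem u.1 u.2) fun t => t.main.2.2
    by_cases e : Em T0 [] (κ p.1)
    · refine Or.inl ⟨⟨ac, e⟩, fun σ s ⟨⟨_, a⟩, b⟩ t => ?_⟩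
      rw [hT] at t
      have := em_iff.1 b t
      simp only [shift_snoc, shift_nil] at this
      exact ⟨this.1, fun k => (this.2 k).imp fun i v => ⟨a t k, v⟩⟩
    · refine Or.inr ⟨cons_mem p (fun s ⟨σ, a, b⟩ => a.main.2.1 _ b)
        fun s ⟨σ, ⟨_, a⟩, b⟩ v i => ?_, [], ac, e⟩
      rw [em_iff] at b
      simp only [shift_snoc, shift_nil] at b
      push Not at b
      obtain ⟨k, hk⟩ := b.2 v
      exact ⟨_, a b.1 k, hk i⟩
  · obtain ⟨z, hz⟩ := (t2 (x, w.1)).1 (by_contra fun v => n ⟨_, v⟩)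
    exact h.not_wf hz wf

/-- the nodes of a path -/
def src (e : X ≃ᵐ X × X) (x : X) (t : ℕ → W) : ℕ → X
  | 0 => x
  | i + 1 => (e (t i).1).1

theorem src.rlz : True := by have := @src.eq_def; trivial

/-- witnessed paths from `x` to the first coordinate of the label -/
def Pth (e : X ≃ᵐ X × X) (C : X × (X × X) × W → Prop) (x : X) (j : J) : Prop :=
  (∀ i, i < j.2.2.1 → C (e.symm (src e x j.2.1 i, src e x j.2.1 (i + 1)), (j.1.2, j.1.2),
    (e (j.2.1 i).1).2, (j.2.1 i).2)) ∧ ∀ m, j.2.2.1 = m → src e x j.2.1 m = j.1.1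

lemma pth_meas (e : X ≃ᵐ X × X) {C : X × (X × X) × W → Prop} (hC : Measurable C) :
    Measurable fun u : X × J => Pth e C u.1 u.2 := by
  have h1 := e.measurable
  have h2 := e.symm.measurable
  have h3 : ∀ i, Measurable fun u : X × J => src e u.1 u.2.2.1 i := fun i => by
    cases i
    · exact measurable_fst
    · simp only [src]; fun_prop
  refine .and (.forall fun i => .imp ((measurable_of_countable fun n : ℕ => i < n).comp
    (by fun_prop)) (hC.comp ?_)) (.forall fun m => .imp (by fun_prop) ((h3 m).eq (by fun_prop)))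
  exact (h2.comp ((h3 i).prodMk (h3 (i + 1)))).prodMk (by fun_prop)

/-- one more step in front -/
noncomputable def pre1 (e : X ≃ᵐ X × X) (x' : X) (f : X × X → W) (j : J) : J :=
  (j.1, fun n => Nat.casesOn n (e.symm (x', (f (j.1.2, j.1.2)).1), (f (j.1.2, j.1.2)).2) j.2.1,
    j.2.2.1 + 1, j.2.2.2)

lemma pre1_emb (e : X ≃ᵐ X × X) (x' : X) {f : X × X → W} (hf : Measurable f) :
    MeasurableEmbedding (pre1 e x' f) := by
  have h2 := e.symm.measurable
  refine Measurable.measurableEmbedding (measurable_fst.prodMk (.prodMk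
    (measurable_pi_lambda _ fun n => ?_) (by fun_prop))) ?_
  · cases n
    · dsimp only; fun_prop
    · dsimp only; fun_prop
  · rintro ⟨a, t, n, b⟩ ⟨a', t', n', b'⟩ h
    simp only [pre1, Prod.mk.injEq, add_left_inj] at h ⊢
    exact ⟨h.1, funext fun i => congrFun h.2.1 (i + 1), h.2.2⟩

lemma pth_pre1 {e : X ≃ᵐ X × X} {C : X × (X × X) × W → Prop} {x x' : X} {f : X × X → W}
    (h : ∀ p, C (e.symm (x, x'), p, f p)) (j : J) : Pth e C x (pre1 e x' f j) ↔ Pth e C x' j := by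
  have s : ∀ i, src e x (pre1 e x' f j).2.1 (i + 1) = src e x' j.2.1 i := fun i => by
    cases i
    · simp [src, pre1]
    · rfl
  refine and_congr ⟨fun t i hi => ?_, fun t i hi => ?_⟩ ⟨fun t m hm => ?_, fun t m hm => ?_⟩
  · have := t (i + 1) (Nat.succ_lt_succ hi)
    rwa [s, s] at this
  · cases i with
    | zero => rw [s]; simpa [src, pre1] using h _
    | succ i => rw [s, s]; exact t i (Nat.lt_of_succ_lt_succ hi)
  · rw [← s]; exact t _ (congrArg (· + 1) hm)
  · obtain rfl : j.2.2.1 + 1 = m := hm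
    rw [s]; exact t _ rfl

theorem fibres {Y : Type} [TopologicalSpace Y] [PolishSpace Y] [MeasurableSpace Y] [BorelSpace Y]
    {E : Set (Y × Y)} (hE : Sigma12 E) (eq : Equivalence fun a b => (a, b) ∈ E) :
    ∃ (i : Y → X) (D : X × J → Prop), Measurable i ∧ Measurable D ∧
      (∀ x b, D (x, (x, b), default, 0, true)) ∧
      (∀ y y', (y, y') ∈ E → ∃ ψ : J ≃ J, Measurable ψ ∧
        (∀ j, D (i y', ψ j) ↔ D (i y, j)) ∧ ∀ j, (ψ j).1 = j.1) ∧
      ∀ y y' (g : X → J), Measurable g → (∀ b, D (i y', g b) ∧ (g b).1 = (i y, b)) →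
        (y, y') ∈ E := by
  obtain ⟨i, i1, i2⟩ := MeasurableSpace.measurable_injection_nat_bool_of_countablySeparated Y
  let j : Y → X := fun y n => (i y n).toNat
  have j1 : Measurable j := measurable_pi_lambda _ fun n =>
    (measurable_of_countable Bool.toNat).comp ((measurable_pi_apply n).comp i1)
  have j2 : Injective j := fun a b e => i2 (funext fun n => by
    have := congrFun e n
    revert this
    simp only [j]
    cases i a n <;> cases i b n <;> simp)
  clear_value j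
  rcases isEmpty_or_nonempty Y with em | ne
  · exact ⟨j, fun _ => True, j1, measurable_const, fun _ _ => trivial, fun y => em.elim y,
      fun y => em.elim y⟩
  obtain ⟨e⟩ : Nonempty (X ≃ᵐ X × X) := ⟨PolishSpace.measurableEquivOfNotCountable
    (unc _ surjective_id) (unc _ Prod.fst_surjective)⟩
  have h2 := e.symm.measurable
  have h1 := e.measurable
  obtain ⟨R, r1, r2⟩ := sigma_iff.1 hE
  obtain ⟨κ, C, k1, k2, c1, c2, c3⟩ := unif' (S := (fun q : Y × Y => e.symm (j q.1, j q.2)) '' E)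
    (sigma_iff.2 (S2.mk' (fun u : X × (Y × Y) × X => e.symm (j u.2.1.1, j u.2.1.2) = u.1 ∧ R u.2)
      (.and (.of (by fun_prop)) (r1.comp measurable_snd)) fun x =>
        ⟨fun ⟨y, a, b⟩ => ((r2 y).1 a).elim fun z t => ⟨(y, z), b, t⟩,
          fun ⟨u, a, b⟩ => ⟨u.1, (r2 _).2 ⟨u.2, b⟩, a⟩⟩))
  refine ⟨j, fun u => Pth e C u.1 u.2, j1, pth_meas e c1,
    fun x b => ⟨fun _ h => absurd h (Nat.not_lt_zero _), fun m hm => ?_⟩, fun y y' h => ?_,
    fun y y' g hg h => by_contra fun n => ?_⟩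
  · obtain rfl : 0 = m := hm
    rfl
  · obtain ⟨f, f1, f2⟩ := c2 _ ⟨(y', y), eq.symm h, rfl⟩
    obtain ⟨f', f3, f4⟩ := c2 _ ⟨(y, y'), h, rfl⟩
    obtain ⟨ψ, p1, p2⟩ := sb (pre1_emb e (j y) f1) (pre1_emb e (j y') f3)
    refine ⟨ψ, p1, fun u => ?_, fun u => ?_⟩ <;> rcases p2 u with t | t
    · rw [t]; exact pth_pre1 f2 u
    · conv_rhs => rw [← t]
      exact (pth_pre1 f4 _).symm
    · rw [t]; rfl
    · conv_rhs => rw [← t]
      rfl
  · obtain ⟨c, hc⟩ := ex_code (A := {p | ∀ m, m < (g p.1).2.2.1 →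
      Cons (κ p.1) (p.1, p.1) ((g p.1).2.1 m).2.2.1 ((g p.1).2.1 m).2.2.2 →
      ((g p.1).2.1 m).2.2.1 [] → ¬ ((g p.1).2.1 m).2.2.2 []}) (Measurable.setOf (.forall fun m =>
        .imp ((measurable_of_countable fun n : ℕ => m < n).comp (by fun_prop)) (by fun_prop)))
    obtain ⟨b, rfl⟩ := k2 c
    obtain ⟨⟨a1, a2⟩, a3⟩ := h b
    rw [a3] at a1 a2
    obtain ⟨m, hm, t⟩ : ∃ m, m < (g b).2.2.1 ∧
        Cons (κ b) (b, b) ((g b).2.1 m).2.2.1 ((g b).2.1 m).2.2.2 ∧ ((g b).2.1 m).2.2.1 [] := by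
      by_contra u
      have : ∀ m, m ≤ (g b).2.2.1 → ∃ z, (z, y') ∈ E ∧ src e (j y') (g b).2.1 m = j z := fun m => by
        induction m with
        | zero => exact fun _ => ⟨y', eq.refl y', rfl⟩
        | succ m ih =>
          intro hm
          obtain ⟨z, z1, z2⟩ := ih (by omega)
          obtain ⟨⟨v, v'⟩, q1, q2⟩ : _ ∈ (fun q : Y × Y => e.symm (j q.1, j q.2)) '' E :=
            by_contra fun q => u ⟨m, hm, c3 _ q _ _ (a1 m hm) ⟨_, hc⟩⟩
          have q3 := Prod.ext_iff.1 (e.symm.injective q2)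
          obtain rfl : v = z := j2 (q3.1.trans z2)
          exact ⟨v', eq.trans (eq.symm q1) z1, q3.2.symm⟩
      obtain ⟨z, z1, z2⟩ := this _ le_rfl
      obtain rfl : z = y := j2 (z2.symm.trans (a2 _ rfl))
      exact n z1
    have s := hc.sound t.1 t.2
    have nA : ¬ ((g b).2.1 m).2.2.2 [] := fun v => s.1 v m hm t.1 t.2 v
    exact nA (s.2 fun m' hm' t1 t2 v => nA (s.2 ((hc.sound t1 t2).1 v)))

end Pool.Agent.Lib.UB93
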