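import Mathlib

/-! Graphs of aperiodic Borel automorphisms. -/

namespace Pool.Agent.Lib.UB93

/-- acyclic two-regular graphs generated by a Borel automorphism -/
def Line {V : Type} [MeasurableSpace V] (G : SimpleGraph V) : Prop :=
  G.IsAcyclic ∧ (∀ v, (G.neighborSet v).encard = 2) ∧
    ∃ T : V ≃ᵐ V, ∀ u v, G.Adj u v ↔ T u = v ∨ T v = u

end Pool.Agent.Lib.UB93
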