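import Pool.Agent.Lib.UB93.LDefs

/-!
Rotations of the product of the prime fields: Borel isomorphisms of their graphs preserve the
set of primes.
-/

namespace Pool.Agent.Lib.UB93

open Set MeasureTheory Function Filter Topology SimpleGraph

lemma sel {Z Ω J : Type} [MeasurableSpace Z] [MeasurableSpace Ω] [MeasurableSpace J]
    {μ : Measure Ω} [SFinite μ] [NeZero μ] {F : Z × Ω → J} (hF : Measurable F) {g : Z → J}
    (h : ∀ z, ∀ᵐ ω ∂μ, F (z, ω) = g z) : Measurable g := fun s hs => by
  have : g ⁻¹' s = (fun z => μ (Prod.mk z ⁻¹' (F ⁻¹' s))) ⁻¹' {0}ᶜ := by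
    ext z
    simp only [mem_preimage, mem_compl_iff, mem_singleton_iff, measure_eq_zero_iff_ae_notMem]
    refine ⟨fun t u => ?_, fun t => by_contra fun u => t ((h z).mono fun ω e => e ▸ u)⟩
    obtain ⟨ω, a, b⟩ := ((h z).and u).exists
    exact b (a ▸ t)
  rw [this]
  exact measurable_measure_prodMk_left (hF hs) (measurableSet_singleton 0).compl

/-- the primes -/
noncomputable abbrev P (n : ℕ) : ℕ := Nat.nth Nat.Prime n

instance factP (n : ℕ) : Fact (P n).Prime := ⟨Nat.prime_nth_prime n⟩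

lemma P_inj : Injective P := Nat.nth_injective Nat.infinite_setOfPred_prime

/-- the product of the prime fields -/
abbrev G0 : Type := (n : ℕ) → ZMod (P n)

instance borelG0 : BorelSpace G0 := Pi.borelSpace

noncomputable abbrev mu0 : Measure G0 := Measure.addHaar

lemma erg {h : G0} (hh : ∀ n, h n ≠ 0) : Ergodic (h + ·) mu0 := by
  refine ergodic_add_left_of_denseRange_nsmul (fun x => ?_) _
  have := fun N => Nat.chineseRemainderOfFinset (fun n => (x n / h n).val) P (Finset.range N)
    (fun n _ => (factP n).out.ne_zero) fun n _ m _ e =>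
      (Nat.coprime_primes (factP n).out (factP m).out).2 (P_inj.ne e)
  refine mem_closure_of_tendsto (f := fun N => (this N).1 • h) (b := atTop)
    (tendsto_pi_nhds.2 fun n => tendsto_const_nhds.congr' ?_) (.of_forall fun N => ⟨_, rfl⟩)
  filter_upwards [eventually_gt_atTop n] with N hN
  have := (ZMod.natCast_eq_natCast_iff _ _ _).2 ((this N).2 n (Finset.mem_range.2 hN))
  rw [Pi.smul_apply, nsmul_eq_mul, this, ZMod.natCast_zmod_val, div_mul_cancel₀ _ (hh n)]

open Classical in
/-- the indicator of the set of primes attached to a label -/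
noncomputable def ind (l : ℕ → Prop) : G0 := fun n => if (n % 2 = 1 ↔ l (n / 2)) then 1 else 0

lemma ind_ex (l : ℕ → Prop) (k : ℕ) : ∃ n, k ≤ n ∧ ind l n = 1 ∧
    ∀ l' : ℕ → Prop, ¬ (l' k ↔ l k) → ind l' n = 0 := by
  by_cases h : l k
  · refine ⟨2 * k + 1, by omega, ?_, fun l' t => ?_⟩ <;>
      simp_all [ind, show (2 * k + 1) / 2 = k by omega]
  · refine ⟨2 * k, by omega, ?_, fun l' t => ?_⟩ <;> simp_all [ind]

lemma ind_free (l : ℕ → Prop) {m : ℕ} (hm : m ≠ 0) : m • ind l ≠ 0 := fun h => by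
  obtain ⟨n, a, b, -⟩ := ind_ex l m
  have := congrFun h n
  rw [Pi.smul_apply, b, nsmul_eq_mul, mul_one, Pi.zero_apply, ZMod.natCast_eq_zero_iff] at this
  have h1 := Nat.le_of_dvd (Nat.pos_of_ne_zero hm) this
  have h2 := Nat.add_two_le_nth_prime n
  simp only [P] at h1
  omega

variable {J : Type} {l l' : J → ℕ → Prop}

/-- the rotation -/
noncomputable def rot (l : J → ℕ → Prop) : Equiv.Perm (J × G0) where
  toFun v := (v.1, v.2 + ind (l v.1))
  invFun v := (v.1, v.2 - ind (l v.1))
  left_inv v := by simp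
  right_inv v := by simp

lemma rot_pow (m : ℕ) (v : J × G0) : (rot l ^ m) v = (v.1, v.2 + m • ind (l v.1)) := by
  induction m with
  | zero => simp
  | succ m ih => rw [pow_succ', Equiv.Perm.mul_apply, ih, succ_nsmul, ← add_assoc]; rfl

lemma rot_inv_pow (m : ℕ) (v : J × G0) : ((rot l)⁻¹ ^ m) v = (v.1, v.2 - m • ind (l v.1)) := by
  rw [inv_pow, Equiv.Perm.inv_eq_iff_eq, rot_pow]; simp

lemma rot_free {m : ℕ} (hm : m ≠ 0) (v : J × G0) : (rot l ^ m) v ≠ v := fun h => by
  rw [rot_pow] at h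
  exact ind_free _ hm (add_eq_left.1 (congrArg Prod.snd h))

/-- the graph of the rotation -/
def lin (l : J → ℕ → Prop) : SimpleGraph (J × G0) where
  Adj u v := rot l u = v ∨ rot l v = u
  symm := ⟨fun _ _ => Or.symm⟩
  loopless := ⟨fun v h => rot_free one_ne_zero v (by simpa using h)⟩

lemma lin_adj {u v : J × G0} : (lin l).Adj u v ↔ v = rot l u ∨ v = (rot l)⁻¹ u :=
  or_congr eq_comm (Equiv.Perm.eq_inv_iff_eq).symm

lemma lin_acyclic : (lin l).IsAcyclic := by
  have k : ∀ u, (lin l).IsBridge s(u, rot l u) := fun u r => by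
    have : ∀ w, Relation.ReflTransGen ((lin l).deleteEdges {s(u, rot l u)}).Adj u w →
        ∃ m : ℕ, (rot l ^ m) w = u := by
      intro w t
      induction t with
      | refl => exact ⟨0, rfl⟩
      | @tail x y _ a ih =>
        obtain ⟨m, rfl⟩ := ih
        rw [deleteEdges_adj] at a
        rcases a.1 with rfl | rfl
        · cases m with
          | zero => exact (a.2 rfl).elim
          | succ m => exact ⟨m, rfl⟩
        · exact ⟨m + 1, rfl⟩
    obtain ⟨m, e⟩ := this _ ((reachable_iff_reflTransGen _ _).1 r)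
    exact rot_free m.succ_ne_zero u e
  refine isAcyclic_iff_forall_adj_isBridge.2 fun u v h => ?_
  rcases h with rfl | rfl
  · exact k u
  · rw [Sym2.eq_swap]; exact k v

lemma lin_deg (u : J × G0) : ((lin l).neighborSet u).encard = 2 := by
  rw [show (lin l).neighborSet u = {rot l u, (rot l)⁻¹ u} from Set.ext fun v => lin_adj]
  exact encard_pair fun h => rot_free two_ne_zero u
    (show rot l (rot l u) = u from Equiv.Perm.eq_inv_iff_eq.1 h)

lemma orb (φ : lin l ≃g lin l') (v : J × G0) : ∃ S, (S = rot l' ∨ S = (rot l')⁻¹) ∧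
    ∀ m : ℕ, φ ((rot l ^ m) v) = (S ^ m) (φ v) := by
  have A : ∀ u, φ (rot l u) = rot l' (φ u) ∨ φ (rot l u) = (rot l')⁻¹ (φ u) := fun u =>
    lin_adj.1 (φ.map_adj_iff.2 (Or.inl rfl))
  obtain ⟨S, s1, s2⟩ : ∃ S, (S = rot l' ∨ S = (rot l')⁻¹) ∧ φ (rot l v) = S (φ v) :=
    (A v).elim (fun h => ⟨_, .inl rfl, h⟩) fun h => ⟨_, .inr rfl, h⟩
  have B : ∀ u, φ (rot l u) = S (φ u) ∨ φ (rot l u) = S⁻¹ (φ u) := fun u => by
    rcases s1 with rfl | rfl
    · exact A u
    · exact (A u).symm
  have C : ∀ m : ℕ, φ (rot l ((rot l ^ m) v)) = S (φ ((rot l ^ m) v)) := fun m => by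
    induction m with
    | zero => exact s2
    | succ m ih =>
      rw [pow_succ', Equiv.Perm.mul_apply]
      refine (B _).resolve_right fun h => ?_
      rw [ih, Equiv.Perm.coe_inv, Equiv.symm_apply_apply] at h
      exact rot_free two_ne_zero _ (φ.injective h)
  refine ⟨S, s1, fun m => ?_⟩
  induction m with
  | zero => rfl
  | succ m ih => rw [pow_succ', pow_succ', Equiv.Perm.mul_apply, Equiv.Perm.mul_apply, C, ih]

lemma orb' (φ : lin l ≃g lin l') (j : J) (x : G0) (m : ℕ) :
    φ (j, x + m • ind (l j)) = ((φ (j, x)).1, (φ (j, x)).2 + m • ind (l' (φ (j, x)).1)) ∨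
    φ (j, x + m • ind (l j)) = ((φ (j, x)).1, (φ (j, x)).2 - m • ind (l' (φ (j, x)).1)) := by
  obtain ⟨S, rfl | rfl, h⟩ := orb φ (j, x)
  · exact .inl (by rw [← rot_pow, ← h, rot_pow])
  · exact .inr (by rw [← rot_inv_pow, ← h, rot_pow])

variable [MeasurableSpace J]

lemma ind_meas (hl : Measurable l) : Measurable fun j => ind (l j) :=
  measurable_pi_lambda _ fun n => .ite (Measurable.setOf (by fun_prop)) measurable_const
    measurable_const

theorem rigid2 [StandardBorelSpace J] [Nonempty J] (hl : Measurable l) (φ : lin l ≃g lin l')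
    (hφ : Measurable φ) : ∃ g : J → J, Measurable g ∧ ∀ j k, l' (g j) k ↔ l j k := by
  have hi := ind_meas hl
  have m1 : Measurable fun u : J × G0 => φ (u.1, u.2 * ind (l u.1)) :=
    hφ.comp (measurable_fst.prodMk (measurable_snd.mul (hi.comp measurable_fst)))
  have m2 : ∀ j, Measurable fun ω : G0 => φ (j, ω * ind (l j)) := fun j =>
    m1.comp measurable_prodMk_left
  have e1 := erg (h := 1) fun n => one_ne_zero
  have s1 : ∀ j ω, (1 + ω) * ind (l j) = ω * ind (l j) + 1 • ind (l j) := fun j ω => by ring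
  choose g hg using fun j => e1.toPreErgodic.ae_eq_const_of_ae_eq_comp
    (g := fun ω => (φ (j, ω * ind (l j))).1) (m2 j).fst (funext fun ω => by
      rcases orb' φ j (ω * ind (l j)) 1 with h | h <;> simp only [comp, s1, h])
  refine ⟨g, sel (μ := mu0) m1.fst hg, fun j k => by_contra fun n => ?_⟩
  obtain ⟨n0, -, a, b⟩ := ind_ex (l' (g j)) k
  have b := b (l j) fun t => n t.symm
  have e2 := erg (h := update (P n0 : G0) n0 1) fun m => by
    by_cases h : m = n0
    · subst h; simp
    · rw [update_of_ne h, Pi.natCast_apply, Ne, ZMod.natCast_eq_zero_iff,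
        Nat.prime_dvd_prime_iff_eq (factP m).out (factP n0).out]
      exact P_inj.ne h
  have s2 : ∀ ω, (update (P n0 : G0) n0 1 + ω) * ind (l j) = ω * ind (l j) + P n0 • ind (l j) :=
    fun ω => funext fun m => by
      by_cases h : m = n0
      · subst h; simp [b]
      · simp [update_of_ne h, add_mul, add_comm]
  obtain ⟨c, hc⟩ := e2.toPreErgodic.ae_eq_const_of_ae_eq_comp
    (g := fun ω => (φ (j, ω * ind (l j))).2 n0) ((measurable_pi_apply n0).comp (m2 j).snd) (funext fun ω => by
      rcases orb' φ j (ω * ind (l j)) (P n0) with h | h <;>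
        simp only [comp, s2, h] <;> simp)
  obtain ⟨ω, ⟨t1, t2⟩, t3⟩ := (((hg j).and hc).and (e1.quasiMeasurePreserving.ae hc)).exists
  simp only [const] at t1 t2 t3
  rcases orb' φ j (ω * ind (l j)) 1 with h | h <;> rw [s1, h, t1] at t3 <;>
    simp [t2, a] at t3

lemma lin_line (hl : Measurable l) : Line (lin l) := by
  have hi := ind_meas hl
  exact ⟨lin_acyclic, lin_deg, ⟨rot l,
    measurable_fst.prodMk (measurable_snd.add (hi.comp measurable_fst)),
    measurable_fst.prodMk (measurable_snd.sub (hi.comp measurable_fst))⟩, fun _ _ => Iff.rfl⟩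

/-- a label preserving bijection gives an isomorphism -/
def linIso (ψ : J ≃ J) (h : ∀ j, l' (ψ j) = l j) : lin l ≃g lin l' where
  toEquiv := ψ.prodCongr (.refl _)
  map_rel_iff' := by
    rintro ⟨j, x⟩ ⟨j', x'⟩
    simp [lin, rot, h]

end Pool.Agent.Lib.UB93
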