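import Pool.Agent.Lib.MP_389802_lc.Hard
import Pool.Agent.Lib.MP_389802_lc.Upper

/-!
Borel isomorphism of Borel graphs is `Σ¹₂`, is not `Π¹₂`, and a single isomorphism class of
smooth forests of degree at most three is already `Σ¹₂`-complete.
-/

set_option autoImplicit false

namespace Pool.Agent.Lib.UB93

open Pool.Agent.Lib.BIso Set MeasureTheory

theorem complete : Sigma12 IsoB ∧
    (¬ ∃ P : Set (Code × Code), Sigma12 P ∧
      ∀ c d G H, CodesG c G → CodesG d H → ((c, d) ∈ P ↔ (c, d) ∉ IsoB)) ∧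
    ∃ (d : Code) (H : SimpleGraph X), CodesG d H ∧ Nice H ∧
      ∀ (Y : Type) [TopologicalSpace Y] [PolishSpace Y] [MeasurableSpace Y] [BorelSpace Y]
        (S : Set Y), Sigma12 S → ∃ f : Y → Code, Measurable f ∧
          (∀ y, ∃ G, CodesG (f y) G ∧ Nice G) ∧ ∀ y, y ∈ S ↔ (d, f y) ∈ IsoB := by
  obtain ⟨d, H, h1, h2, h3⟩ := hard
  refine ⟨upper, fun ⟨P, p1, p2⟩ => ?_, d, H, h1, h2, fun Y _ _ _ _ S hS => ?_⟩
  · obtain ⟨U, u1, u2⟩ := not_dual
    obtain ⟨f, f1, f2, f3⟩ := h3 U u1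
    refine u2 ?_
    convert (sigma_iff.1 p1).comp (f := fun x => (d, f x)) (by fun_prop) using 2 with x
    obtain ⟨G, g, -⟩ := f2 x
    rw [f3, p2 _ _ _ _ h1 g]
  · obtain ⟨i, i1, i2⟩ := MeasurableSpace.measurable_injection_nat_bool_of_countablySeparated Y
    let j : Y → X := fun y n => (i y n).toNat
    have j1 : Measurable j := measurable_pi_lambda _ fun n =>
      (measurable_of_countable Bool.toNat).comp ((measurable_pi_apply n).comp i1)
    have j2 : Function.Injective j := fun a b e => i2 (funext fun n => by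
      have := congrFun e n
      revert this
      simp only [j]
      cases i a n <;> cases i b n <;> simp)
    rcases isEmpty_or_nonempty Y with e | e
    · exact ⟨fun _ => d, measurable_const, fun y => e.elim y, fun y => e.elim y⟩
    obtain ⟨R, r1, r2⟩ := sigma_iff.1 hS
    obtain ⟨f, f1, f2, f3⟩ := h3 (j '' S) (sigma_iff.2 (S2.mk'
      (fun u : X × Y × X => j u.2.1 = u.1 ∧ R u.2) (.and (.of (by fun_prop))
        (r1.comp measurable_snd)) fun x => ⟨fun ⟨y, a, b⟩ => ((r2 y).1 a).elim fun z t =>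
          ⟨(y, z), b, t⟩, fun ⟨u, a, b⟩ => ⟨u.1, (r2 _).2 ⟨u.2, b⟩, a⟩⟩))
    exact ⟨f ∘ j, f1.comp j1, fun y => f2 _, fun y => j2.mem_set_image.symm.trans (f3 _)⟩

end Pool.Agent.Lib.UB93
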