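import Pool.Agent.Lib.UB93.Fib
import Pool.Agent.Lib.UB93.Sets
import Pool.Agent.Lib.UB93.Odo

/-! Universality on acyclic two-regular graphs. -/

namespace Pool.Agent.Lib.UB93

open Pool.Agent.Lib.BIso Set MeasureTheory SimpleGraph

section
variable {V : Type} [MeasurableSpace V] (e : X ≃ᵐ V) {G H : SimpleGraph V}

lemma iso_comap' {c d : Code} (hc : CodesG c (G.comap e)) (hd : CodesG d (H.comap e)) :
    (c, d) ∈ IsoB ↔ ∃ φ : G ≃g H, Measurable φ := by
  refine ⟨fun ⟨_, _, a, b, φ, h⟩ => ?_, fun ⟨φ, h⟩ => ⟨_, _, hc, hd,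
    (Iso.comap e.toEquiv G).trans (φ.trans (Iso.comap e.toEquiv H).symm),
    e.symm.measurable.comp (h.comp e.measurable)⟩⟩
  obtain rfl := hc.uniq a
  obtain rfl := hd.uniq b
  exact ⟨(Iso.comap e.toEquiv G).symm.trans (φ.trans (Iso.comap e.toEquiv H)),
    e.measurable.comp (h.comp e.symm.measurable)⟩

lemma line_comap (h : Line G) : Line (G.comap e) := by
  let φ := Iso.comap e.toEquiv G
  obtain ⟨a, b, T, t⟩ := h
  exact ⟨φ.isAcyclic_iff.2 a, fun v => (encard_congr (φ.mapNeighborSet v)).trans (b _),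
    e.trans (T.trans e.symm), fun u v => (t _ _).trans
      (or_congr e.toEquiv.symm_apply_eq.symm e.toEquiv.symm_apply_eq.symm)⟩
end

/-- the label with a flag in front -/
def flag (D : J → Prop) (j : J) : ℕ → Prop
  | 0 => D j
  | k + 1 => D j ∧ lb j k

theorem flag.rlz : True := by have := @flag.eq_def; trivial

lemma flag_meas {D : X × J → Prop} (hD : Measurable D) :
    Measurable fun u : X × J => flag (fun j => D (u.1, j)) u.2 :=
  measurable_pi_lambda _ fun k => by
    cases k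
    · exact hD
    · exact hD.and (meas_bas (by fun_prop) _)

theorem univ_line (Y : Type) [TopologicalSpace Y] [PolishSpace Y] [MeasurableSpace Y]
    [BorelSpace Y] (E : Set (Y × Y)) (hE : Sigma12 E) (eq : Equivalence fun a b => (a, b) ∈ E) :
    ∃ f : Y → Code, Measurable f ∧ (∀ y, ∃ G, CodesG (f y) G ∧ Line G) ∧
      ∀ y y', (y, y') ∈ E ↔ (f y, f y') ∈ IsoB := by
  have : StandardBorelSpace G0 := .pi_countable
  have : StandardBorelSpace (J × G0) := .prod
  obtain ⟨e⟩ : Nonempty (X ≃ᵐ J × G0) := ⟨PolishSpace.measurableEquivOfNotCountable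
    (unc _ Function.surjective_id)
    (unc (fun v => v.1.1.1) fun x => ⟨(((x, x), default), default), rfl⟩)⟩
  obtain ⟨i, D, i1, d1, d2, d3, d4⟩ := fibres hE eq
  have m := flag_meas d1
  have m1 : ∀ x, Measurable (flag fun j => D (x, j)) := fun x => m.comp measurable_prodMk_left
  have m2 : Measurable fun u : X × J × G0 => rot (flag fun j => D (u.1, j)) u.2 :=
    measurable_snd.fst.prodMk (measurable_snd.snd.add
      ((ind_meas m).comp (measurable_fst.prodMk measurable_snd.fst)))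
  have m3 : Measurable fun u : X × X × X => e u.2.1 := e.measurable.comp measurable_snd.fst
  have m4 : Measurable fun u : X × X × X => e u.2.2 := e.measurable.comp measurable_snd.snd
  obtain ⟨c, c1, c2⟩ : ∃ c : X → Code, Measurable c ∧
      ∀ x, CodesG (c x) ((lin (flag fun j => D (x, j))).comap e) :=
    param (F := {u : X × X × X | (lin (flag fun j => D (u.1, j))).Adj (e u.2.1) (e u.2.2)})
      ((measurableSet_eq_fun (m2.comp (measurable_fst.prodMk m3)) m4).union
        (measurableSet_eq_fun (m2.comp (measurable_fst.prodMk m4)) m3))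
  refine ⟨c ∘ i, c1.comp i1, fun y => ⟨_, c2 _, line_comap e (lin_line (m1 _))⟩, fun y y' =>
    .trans ⟨fun h => ?_, fun ⟨φ, h⟩ => ?_⟩ (iso_comap' e (c2 (i y)) (c2 (i y'))).symm⟩
  · obtain ⟨ψ, p1, p2, p3⟩ := d3 y y' h
    refine ⟨linIso ψ fun j => funext fun k => ?_, (p1.comp measurable_fst).prodMk measurable_snd⟩
    cases k <;> simp only [flag, lb, p2, p3]
  · obtain ⟨g, g1, g2⟩ := rigid2 (m1 _) φ h
    refine d4 y y' (fun b => g ((i y, b), default, 0, true)) (g1.comp (by fun_prop)) fun b => ?_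
    have a := (g2 ((i y, b), default, 0, true) 0).2 (d2 _ _)
    exact ⟨a, bas_inj fun k => (and_iff_right a).symm.trans
      ((g2 _ (k + 1)).trans (and_iff_right (d2 _ _)))⟩

theorem class_line : ∃ (d : Code) (H : SimpleGraph X), CodesG d H ∧ Line H ∧
    ∀ (Y : Type) [TopologicalSpace Y] [PolishSpace Y] [MeasurableSpace Y] [BorelSpace Y]
      (S : Set Y), Sigma12 S → ∃ f : Y → Code, Measurable f ∧
        (∀ y, ∃ G, CodesG (f y) G ∧ Line G) ∧ ∀ y, y ∈ S ↔ (d, f y) ∈ IsoB := by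
  obtain ⟨u, -, d, H, h1, -, h2⟩ := complete
  obtain ⟨R, r1, r2⟩ := sigma_iff.1 u
  have dd : (d, d) ∈ IsoB := ⟨H, H, h1, h1, .refl, measurable_id⟩
  obtain ⟨f, f1, f2, f3⟩ := univ_line Code
    {q | q.1 = q.2 ∨ ((d, q.1) ∈ IsoB ∧ (d, q.2) ∈ IsoB)} (sigma_iff.2 (S2.mk'
      (fun u : (Code × Code) × X × X =>
        u.1.1 = u.1.2 ∨ (R ((d, u.1.1), u.2.1) ∧ R ((d, u.1.2), u.2.2)))
      (.or (.of (by fun_prop)) (.and (r1.comp (by fun_prop)) (r1.comp (by fun_prop))))
      fun q => by simp [r2, exists_or]))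
    ⟨fun _ => .inl rfl, fun h => h.imp Eq.symm And.symm, by
      intro a b c
      simp only [mem_ofPred_eq]
      grind⟩
  obtain ⟨G, g1, g2⟩ := f2 d
  refine ⟨f d, G, g1, g2, fun Y _ _ _ _ S hS => ?_⟩
  obtain ⟨k, k1, -, k3⟩ := h2 Y S hS
  exact ⟨f ∘ k, f1.comp k1, fun y => f2 _, fun y => (k3 y).trans (.trans
    ⟨fun h => .inr ⟨dd, h⟩, fun h => h.elim (fun t => (show d = k y from t) ▸ dd) And.right⟩ (f3 d (k y)))⟩

end Pool.Agent.Lib.UB93
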